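import Pool.Agent.MP_c1dca2_ag.SUU.U7

/-!
# Grothendieck's section conjecture for 100% of all superelliptic curves

Let `k` be a number field. We consider the superelliptic curves `y^m = c(a) F(x)` over `k`, where
`F ∈ k[X]` is monic with the prime factors of `G(a, x) f_1(x) ⋯ f_r(x)`. Here `a ∈ 𝓞 k` and the
monic polynomials `f_i ∈ 𝓞 k[X]` of degree `n_i ≥ 2` vary over all points of a box (with respect to
a `ℤ`-basis of `𝓞 k`), `G ∈ k[t][x]` is fixed and such that `G(0, x)` is separable, of the degree
of `G` in `x`, and without a root fixed by a suitable element of its Galois group (`G = 1` is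
allowed), and `c ∈ k[t]` has a simple zero at `0`. As the sides of the box tend to infinity, 100% of
the points have the property that for **all** exponents `m`, **all** such `F` and **all** primes
`ℓ ∣ m` which divide the degree of `F` and no multiplicity of a prime factor of `F`, the curve
`y^m = c(a) F(x)` and every curve with a nonconstant map to it has no section of
`π₁ → Gal(k^alg / k)`; in particular it has no rational point, and the section conjecture holds for
it. This is uniform in the position of the box (upper Banach density zero).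

* `G = 1`, `c = t`: 100% of all superelliptic curves `y^m = a f_1(x)^(e_1) ⋯ f_r(x)^(e_r)`; e.g. all
  `y^m = a f(x)` with `gcd (m, deg f) > 1`. Every curve `y^m = F(x)`, `m ∣ deg F`, is isomorphic to
  one of these.
* `r = 0`, `c = t`, `G ∈ k[x]`: 100% of the twists of one curve.
* `r = 0`: 100% of the curves of a family `y^m = F(t, x)` with one parameter, if
  `F(t, x) = t F₁(t, x)`, `deg_x F₁ = deg F₁(0, x)` and `F₁(0, x)` is separable as above.
-/

set_option autoImplicit false

open NumberField Polynomial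

namespace Pool.Agent.Results.MP_c1dca2_ag.AlmostAllSuperelliptic

/-- The polynomial `G(a, x)`. -/
noncomputable abbrev ev {k : Type} [Field k] (G : k[X][X]) (a : k) : k[X] :=
  G.map (evalRingHom a)

theorem result (k : Type) [Field k] [NumberField k] (ι : Type) [Fintype ι]
    (b : Module.Basis ι ℤ (𝓞 k)) (r : Type) [Fintype r] (n : r → ℕ) (hn : ∀ i, 2 ≤ n i)
    (G : k[X][X]) (hdeg : (ev G 0).natDegree = G.natDegree) (hsep : (ev G 0).Separable)
    (hσ : (Irreducible (ev G 0) ∧ 2 ≤ G.natDegree) ∨
      ∃ σ : (ev G 0).SplittingField ≃ₐ[k] (ev G 0).SplittingField,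
        ∀ x : (ev G 0).SplittingField, aeval x (ev G 0) = 0 → σ x ≠ x)
    (h3 : 3 ≤ G.natDegree + ∑ i, n i)
    (c : k[X]) (hc : c.eval 0 = 0) (hc' : c.derivative.eval 0 ≠ 0) (ε : ℝ) (hε : 0 < ε) :
    ∃ M : ℕ, ∀ (u : SUU.Idx n ι → ℤ) (N : SUU.Idx n ι → ℕ), (∀ x, M ≤ N x) →
      (Nat.card {z : SUU.Idx n ι → ℤ // (∀ x, u x ≤ z x ∧ z x < u x + N x) ∧
        ¬ SUP.AllSec k (ev G (SUU.aOf b z : k) *
          ∏ i, SUU.mon (n i) (fun j => (SUU.cOf b z i j : k))) (c.eval (SUU.aOf b z : k))} : ℝ) ≤
        ε * ∏ x, (N x : ℝ) := by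
  obtain ⟨c₁, rfl⟩ : X ∣ c := by
    rw [X_dvd_iff, coeff_zero_eq_eval_zero]
    exact hc
  have hc₁ : c₁.eval 0 ≠ 0 := by
    intro h
    apply hc'
    rw [derivative_mul, derivative_X, one_mul, eval_add, eval_mul, eval_X, zero_mul, add_zero]
    exact h
  obtain ⟨M, hM⟩ := SUU.main b n hn G c₁ hc₁ hdeg hsep h3 hσ ε hε
  refine ⟨M, fun u N hN => ?_⟩
  have h1 := hM u N hN
  simp only [eval_mul, eval_X]
  exact h1

end Pool.Agent.Results.MP_c1dca2_ag.AlmostAllSuperelliptic
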