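import Pool.Agent.MP_c1dca2_ag.GT.G7

/-!
# Grothendieck's section conjecture for 100% of the twists of every curve with an automorphism of
prime order

Let `X` be a smooth projective geometrically connected curve over a number field `k₀` and
`C ⊆ Aut (X)` a `k₀`-group scheme of prime order `ℓ` (generated by an automorphism of order `ℓ` over
`k₀^alg`). There is a cyclic extension `k / k₀` of degree dividing `ℓ - 1` with `C ≅ μ_ℓ` over `k`;
over `k₀`, `C` is `μ_ℓ` twisted by a character `ψ : Gal (k / k₀) → 𝔽_ℓ^*`. Let `K₁` be the function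
field of `X / C` over `k`. By Kummer theory, `k(X) = K₁(y)`, `y ^ ℓ = h`, and the twist `X_T` of `X`
by a `C`-torsor `T` has over `k` the function field `K₁(y)`, `y ^ ℓ = c h`, where
`c ∈ k^* / (k^*)^ℓ` is the class of `T`. The classes of all `C`-torsors over `k₀` are the
`c(a) = ∏_σ σ(a)^(n σ)`, `a ∈ 𝓞 k`, for exponents `n σ` which are `ψ(σ)` modulo `ℓ`, `n 1 = 1`.

Assume that some element of `Gal (k₀^alg / k)` moves all fixed points of `C` in `X(k₀^alg)` (e.g. `C`
has no fixed points; or they are all conjugate over `k`, and not rational). Then for 100% of the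
`a ∈ 𝓞 k`, i.e. for 100% of all twists of `X` by `C`-torsors, the twisted curve `X_T` and every curve
over `k₀` with a nonconstant map to `X_T` have no section of `π₁ → Gal (k₀^alg / k₀)`; in particular
they have no rational point, and the section conjecture holds for them. If the genus of `X` is at
least `2`, this is the question for `X_T`; curves `X` of genus `1`, and quotients `X / C` of any
genus, are included. Here 100% (of the parameters `a`) means that the proportion of the exceptions in
a box of `𝓞 k` tends to `0` if its sides tend to infinity, uniformly in the position of the box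
(upper Banach density zero). If `ℓ = 2` and there are exactly two fixed points, we assume that
`X / C` has a connected unramified double cover over `k₀^alg` (`UnrCover`: its genus is not `0`; if
it is `0`, the twists are conics).

The reason is a local theorem (`GT.g6_local`): at all but finitely many primes of `k` at which
Frobenius moves all fixed points, no twist which is ramified there has a section.

The theorem is for all function fields `K₁` over `k`, all `h`, and all fields `K₀` over `k₀` such
that the compositum `K` of `K₀` and `k` contains `K₁` and a root of `y ^ ℓ = c(a) h`. Over `k = k₀`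
it is about all twists `y ^ ℓ = a h` (`n = 1`) of every curve which is a `μ_ℓ`-cover of another
curve.
-/

set_option autoImplicit false

open NumberField GTS

namespace Pool.Agent.Results.MP_c1dca2_ag.AlmostAllTwistsOfEveryCurve

theorem result (k₀ k : Type) [Field k₀] [NumberField k₀] [Field k] [NumberField k] [Algebra k₀ k]
    (K₁ : Type) [Field K₁] [Algebra k K₁] (hK₁ : IsFunctionField k K₁)
    (ℓ : ℕ) (hℓ : ℓ.Prime) (h : K₁) (h0 : h ≠ 0)
    (h2 : ¬ (ℓ = 2 ∧ (Branch k K₁ ℓ h).ncard = 2) ∨ UnrCover k K₁ ℓ)
    (hmoved : Moved k K₁ ℓ h) (n : (k ≃ₐ[k₀] k) → ℕ) (hn : ¬ ℓ ∣ n 1)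
    (ι : Type) [Fintype ι] (b : Module.Basis ι ℤ (𝓞 k)) (ε : ℝ) (hε : 0 < ε) :
    ∃ M : ℕ, ∀ (u : ι → ℤ) (N : ι → ℕ), (∀ i, M ≤ N i) →
      (Nat.card {z : ι → ℤ // (∀ i, u i ≤ z i ∧ z i < u i + N i) ∧
        ¬ NoSectionForms k₀ k K₁ ℓ h (param n ((∑ i, z i • b i : 𝓞 k) : k))} : ℝ) ≤
          ε * ∏ i, (N i : ℝ) :=
  GT.main_global hK₁ hℓ h0 h2 hmoved n hn b ε hε

end Pool.Agent.Results.MP_c1dca2_ag.AlmostAllTwistsOfEveryCurve
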